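import Pool.Agent.J4H22.WA.Main

/-!
# Average-case hardness of exponential space for nondeterministic exponential time, length by length

The classes are relative to an arbitrary oracle `A` (the empty oracle gives the classes of the
question), with linear exponents as in the question (`Lin`), and also with polynomial exponents
(`Pol`): `InNTime Lin A` is `NEXPTIME` relative to `A`, `InSpace Lin A` is `EXPSPACE` relative to
`A` (definitions in `Pool.Agent.H620R2.Gauge.Defs` and `Pool.Agent.H622R2.Exp.Defs`).

`Close α β L S n` (in `Pool.Agent.J4H22.WA.Defs`): at length `n`, the language `S` misses at most
`α 2 ^ n` of the strings in `L` and contains at most `β 2 ^ n` strings which are not in `L`.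

Main result: let `α + β < 1/4`. Every language `L` in `EXPSPACE` is reduced to a language `L'` in
`EXPSPACE` which contains half of the strings of every length `m ≥ c`, such that, for every `S` in
`NEXPTIME`, some `S'` in `NEXPTIME` is equal to `L` at all those lengths `n` at which `S` is close
to `L'` at length `c (n + 1) + r`. Hence `EXPSPACE` is contained in `NEXPTIME` infinitely often
(every language in `EXPSPACE` is equal to one in `NEXPTIME` at infinitely many lengths) if and only
if every language in `EXPSPACE` is close to one in `NEXPTIME` at infinitely many lengths. (If `S`
and `L'` differ for at most `α 2 ^ n` strings of length `n`, with `α < 1/8`, then they are close for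
`α = β`; so agreement for more than `7/8` of the strings suffices.)

Proof. `L'` encodes the truth tables of `L`, with a code such that half of the bits of every code
word are true and about a quarter of the positions are true in two given code words (values of a
polynomial modulo a prime number, inner products of their binary digits, and a last bit). A
nondeterministic machine cannot verify that a string is not in `S`, but it can guess a truth table
and many members of `S` in the code word of the table; for the right truth table there are more of
them than for every other table.
-/

set_option autoImplicit false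

namespace Pool.Agent.Results.MP_d5876b_lc.AverageCaseInfinitelyOften

open Pool.Agent.NPC Pool.Agent.H620R2.Gauge Pool.Agent.H622R2.Exp Pool.Agent.J4H22.WA Filter

/-- **Exponential space against nondeterministic exponential time: exact computation at infinitely
many lengths is equivalent to approximation at infinitely many lengths.** -/
theorem result (A : Oracle) (E : Set (Polynomial ℕ)) (hE : E = Lin ∨ E = Pol) (α β : ℝ)
    (hα : 0 ≤ α) (hβ : 0 ≤ β) (h : α + β < 1 / 4) :
    (∀ L : Set (List Bool), InSpace E A L →
      ∃ (c : ℕ) (L' : Set (List Bool)), 0 < c ∧ InSpace E A L' ∧
        (∀ m ≥ c, 2 * Set.ncard {y : List Bool | y.length = m ∧ y ∈ L'} = 2 ^ m) ∧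
        ∀ r < c, ∀ S : Set (List Bool), InNTime E A S →
          ∃ S' : Set (List Bool), InNTime E A S' ∧
            ∀ n : ℕ, Close α β L' S (c * (n + 1) + r) →
              ∀ x : List Bool, x.length = n → (x ∈ S' ↔ x ∈ L)) ∧
    ((∀ L : Set (List Bool), InSpace E A L → IO (InNTime E A) L) ↔
      ∀ L : Set (List Bool), InSpace E A L →
        ∃ S : Set (List Bool), InNTime E A S ∧ ∃ᶠ n in atTop, Close α β L S n) := by
  have hG : Good E ∧ Good2 E := by
    rcases hE with rfl | rfl
    · exact ⟨good_Lin, good2_Lin⟩
    · exact ⟨good_Pol, good2_Pol⟩
  exact ⟨fun L hL => reduction hG.1 hG.2 hβ h hL, iff_io hG.1 hG.2 hα hβ h⟩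

end Pool.Agent.Results.MP_d5876b_lc.AverageCaseInfinitelyOften
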