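import Pool.Agent.J4H65.NE.Main

/-!
# The size of the set of the oracles relative to which `NEXPTIME = EXPSPACE`

All exponents are linear, as in the question: the classes are the unions over `c` of
`TIME(2^(cn))`, `NTIME(2^(cn))` and `SPACE(2^(cn))`, relative to an oracle `A`. The definitions are
in `Pool.Agent.H620R2.Gauge.Defs`, `Pool.Agent.H620R2.Gauge2.Defs`, `Pool.Agent.H622R2.Exp.Defs`:
* `InTime Lin A`, `InNTime Lin A`, `InSpace Lin A`: `EXPTIME`, `NEXPTIME`, `EXPSPACE` relative to
  `A` (with linear exponents); `InTime Pol A`, ...: the same with polynomial exponents;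
* `IsNP A`, `IsPSPACE A`, `IsPHpoly A`: `NP`, `PSPACE`, `PH/poly` relative to `A`;
* `Null f X`: the set `X` of oracles is a null set for the gauge `f`, that is, for every `δ > 0`
  there is a family of finite sequences `σ`, such that every oracle in `X` extends one of them,
  with the sum of `2 ^ (f |σ| - |σ|)` at most `δ` (`f = 0`: Lebesgue measure; `f n = (1 - s) n`: the
  `s`-dimensional Hausdorff measure);
* `InAltAdv Lin A` (in `Pool.Agent.J4H65.NE.Ev`): a constant number of alternating quantifiers over
  the strings of length `2^(cn)` in front of a property in `P` relative to `A`, with an advice of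
  `2 ^ n / 2` bits for the inputs of length `n` (a whole truth table has `2 ^ n` bits).

Main result: the set of the oracles with `NEXPTIME = EXPSPACE` is null for the gauge `f` if and only
if for all `ε > 0` one has `f N ≤ (log N) ^ ε` for infinitely many `N`. The same holds for the
subset of the oracles for which, moreover, `EXPTIME = EXPSPACE` but `PSPACE` is not contained in
`PH/poly` (so that `NP ≠ PSPACE`), and for the larger set of the oracles for which `EXPSPACE` is
contained in the exponential hierarchy with advice.

The second part compares the question with the one for polynomial exponents, which is implied by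
the equality for linear exponents: the set of the oracles for which the classes with polynomial
exponents coincide, but those with linear exponents do not, is null iff for all `ε > 0` one has
`f N ≤ 2 ^ ((log log N) ^ ε)` infinitely often, so this set is larger.

Proof. Upper bound: the parities of the blocks of strings which begin with the inputs `x`, padded
to the length `2^(4n)`, are a language in `EXPSPACE`. After a random restriction (switching lemma)
the predicates of the exponential hierarchy become shallow decision trees; there are free bits in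
each block, so each of the `2 ^ (2 ^ n / 2 + 1)` advices is right for all `2 ^ n` inputs with
probability at most `2 ^ (- 2 ^ n)`. Lower bound: coding of the answers of all exponential space
algorithms into the oracle, from the library; this leaves all but `(log N) ^ ε` of the first `N`
bits of the oracle free. The oracles with `PSPACE` in `PH/poly` are null for larger gauges.
-/

set_option autoImplicit false

namespace Pool.Agent.Results.MP_d5876b_lc.CollapsingOracles

open Pool.Agent.NPC Pool.Agent.H620R2.Gauge Pool.Agent.H622R2.Exp Pool.Agent.J4H65.NE Filter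

/-- **The exact gauge of the set of the oracles relative to which `NEXPTIME = EXPSPACE` (with
linear exponents).** -/
theorem result (f : ℕ → ℝ) :
    (∀ O : Set Oracle,
      (∀ A : Oracle, (∀ L, InSpace Lin A L → InTime Lin A L) →
        (∃ L, IsPSPACE A L ∧ ¬ IsPHpoly A L) → A ∈ O) →
      (∀ A ∈ O, ∀ L, InSpace Lin A L → InAltAdv Lin A L) →
      (Null f O ↔ ∀ ε : ℝ, 0 < ε → ∃ᶠ N : ℕ in atTop, f N ≤ (Real.logb 2 N) ^ ε)) ∧
    (Null f {A : Oracle | ∀ L, InNTime Lin A L ↔ InSpace Lin A L} ↔
      ∀ ε : ℝ, 0 < ε → ∃ᶠ N : ℕ in atTop, f N ≤ (Real.logb 2 N) ^ ε) ∧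
    (Null f {A : Oracle | (∀ L, InNTime Lin A L ↔ InSpace Lin A L) ∧
        ∃ L, IsPSPACE A L ∧ ¬ IsNP A L} ↔
      ∀ ε : ℝ, 0 < ε → ∃ᶠ N : ℕ in atTop, f N ≤ (Real.logb 2 N) ^ ε) ∧
    (Null f {A : Oracle | (∀ L, InNTime Pol A L ↔ InSpace Pol A L) ∧
        ∃ L, InSpace Lin A L ∧ ¬ InNTime Lin A L} ↔
      ∀ ε : ℝ, 0 < ε → ∃ᶠ N : ℕ in atTop,
        f N ≤ 2 ^ (Real.logb 2 (Real.logb 2 N)) ^ ε) := by
  refine ⟨fun O h1 h2 => exact_lin f O h1 h2, exact_lin f _ ?_ ?_, exact_lin f _ ?_ ?_,
    exact_pol f _ ?_ ?_⟩
  · intro A hA _ L
    exact ⟨fun h => h.isSpace good_Lin, fun h => (hA L h).isNTime⟩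
  · intro A hA L hL
    exact InAlt.adv ((hA L).2 hL).isAlt
  · rintro A hA ⟨L', h1, h2⟩
    exact ⟨fun L => ⟨fun h => h.isSpace good_Lin, fun h => (hA L h).isNTime⟩,
      L', h1, fun h => h2 h.isPH.isPHpoly⟩
  · intro A hA L hL
    exact InAlt.adv ((hA.1 L).2 hL).isAlt
  · rintro A hA ⟨L', h1, h2⟩
    exact ⟨fun L => ⟨fun h => h.isSpace good_Pol, fun h => (hA L h).isNTime⟩,
      L', h1, fun h => h2 (InAlt.adv h.isAlt)⟩
  · intro A hA L hL
    exact InAlt.adv ((hA.1 L).2 hL).isAlt

end Pool.Agent.Results.MP_d5876b_lc.CollapsingOracles
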