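import Pool.Agent.J4H65.WA.Sub4

/-!
# Equality of nondeterministic exponential time and exponential space, and approximation of
tally languages from few members

(Linear exponents, relative to an arbitrary oracle.) Here the errors are measured by a power of
the number of the elements of the tally language.
-/

namespace Pool.Agent.Results.MP_d5876b_lc.TallyPowerApproximation

open Pool.Agent.H620R2.Gauge Pool.Agent.H622R2.Exp Pool.Agent.J4H65.WA

theorem result (A : Oracle) (γ : ℚ) (hγ0 : 0 < γ) (hγ1 : γ ≤ 1) :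
    (∀ L : Set (List Bool), InNTime Lin A L ↔ InSpace Lin A L) ↔
      ∀ T : Set (List Bool), Tally T → IsPSPACE A T →
        ∃ S : Set (List Bool), IsNP A S ∧ ∃ α β : ℝ, β < α ∧
          (∀ᶠ N : ℕ in Filter.atTop, (cn (S \ T) N : ℝ) ≤ β * (cn T N : ℝ) ^ (γ : ℝ)) ∧
          ∃ C : ℕ, ∀ᶠ N : ℕ in Filter.atTop, ∃ M : ℕ, N ≤ M ∧ M ≤ N ^ C ∧
            α * (cn T M : ℝ) ^ (γ : ℝ) ≤ cn (T ∩ S) M := by
  have hγr0 : (0 : ℝ) < γ := by exact_mod_cast hγ0
  have hγr1 : (γ : ℝ) ≤ 1 := by exact_mod_cast hγ1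
  constructor
  · intro h T hT hP
    refine ⟨T, exact_of (fun L hL => (h L).2 hL) hT hP, 1, 0, by norm_num, ?_, 1, ?_⟩
    · refine Filter.Eventually.of_forall fun N => ?_
      simp [cn]
    · refine Filter.Eventually.of_forall fun N => ⟨N, le_rfl, by simp, ?_⟩
      rw [one_mul, Set.inter_self]
      rcases Nat.eq_zero_or_pos (cn T N) with h0 | h0
      · rw [h0, Nat.cast_zero, Real.zero_rpow hγr0.ne']
      · have h1 : (1 : ℝ) ≤ cn T N := by exact_mod_cast h0
        calc (cn T N : ℝ) ^ (γ : ℝ) ≤ (cn T N : ℝ) ^ (1 : ℝ) :=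
              Real.rpow_le_rpow_of_exponent_le h1 hγr1
          _ = cn T N := Real.rpow_one _
  · intro h L
    refine ⟨fun hL => hL.isSpace good_Lin, fun hL => ?_⟩
    have hnum : 0 < γ.num := Rat.num_pos.2 hγ0
    have hle : γ.num.toNat ≤ γ.den := by
      have h1 : γ.num ≤ γ.den := by
        have h2 := Rat.num_div_den γ
        have h3 : (0 : ℚ) < γ.den := by exact_mod_cast γ.den_pos
        rw [← h2, div_le_one h3] at hγ1
        exact_mod_cast hγ1
      omega
    have hγe : (γ : ℝ) * γ.den = (γ.num.toNat : ℕ) := by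
      have h1 : ((γ.num.toNat : ℤ)) = γ.num := Int.toNat_of_nonneg hnum.le
      have h2 : ((γ.num.toNat : ℕ) : ℝ) = (γ.num : ℝ) := by
        rw [← Int.cast_natCast, h1]
      rw [h2]
      have h3 : (γ : ℝ) = (γ.num : ℝ) / γ.den := Rat.cast_def γ
      have h4 : (0 : ℝ) < γ.den := by exact_mod_cast γ.den_pos
      rw [h3]
      field_simp
    obtain ⟨T, hT, hP, hc⟩ := uni_core hL (g₁ := γ.num.toNat) (g₂ := γ.den) (by omega) hle hγe
    obtain ⟨S, hS, α, β, hαβ, h1, C, h2⟩ := h T hT hP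
    exact hc ⟨S, hS, α, β, hαβ, h1, C, h2⟩

end Pool.Agent.Results.MP_d5876b_lc.TallyPowerApproximation
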