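import Pool.Agent.J4H22.WA.Fin2

/-!
# Prediction with a tiny advantage decides `NEXPTIME = EXPSPACE`

The classes are relative to an arbitrary oracle `A` (the empty oracle gives the classes of the
question), with linear exponents as in the question (`Lin`), and also with polynomial exponents
(`Pol`): `InNTime Lin A` is `NEXPTIME` relative to `A`, `InSpace Lin A` is `EXPSPACE` relative to
`A` (definitions in `Pool.Agent.H620R2.Gauge.Defs` and `Pool.Agent.H622R2.Exp.Defs`).

`agr S L n` (in `Pool.Agent.J4H22.WA.Defs2`) is the number of the strings of length `n` for which
the languages `S` and `L` agree.

Main result: let `0 < γ < 1/4`. Every language in `EXPSPACE` is in `NEXPTIME` if and only if for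
every language `L` in `EXPSPACE` there is a language `S` in `NEXPTIME` which agrees with `L` for a
fraction of at least `1/2 + 2 ^ (-γ n)` of the strings of length `n`, for all but finitely many `n`.
(So if `NEXPTIME ≠ EXPSPACE`, then there is a language in `EXPSPACE` which no language in `NEXPTIME`
predicts with the advantage `2 ^ (-γ n)` at all large lengths.)

Proof. 1. The truth tables of `L` are encoded with a code whose words are almost uncorrelated
(values of a polynomial modulo a prime number and inner products of their digits). By the
Cauchy-Schwarz inequality only `2 ^ O(n)` code words have the required correlation with `S`.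
2. A nondeterministic machine cannot verify that a string is not in `S`. But with `O(n)` bits of
advice (a threshold for the number of the guessed members of `S`, and the value modulo a prime
number of the right table at a separating point) it can guess and verify the right table.
3. The advice is eliminated: first, `L` is padded, so that only the lengths `2 ^ (b i)` matter. The
first good advice for the length `N = 2 ^ (b i)` is computable in exponential space. Its bits (and
their complements) are put into the lengths `N + t`, one bit for each length, in a language in
`EXPSPACE` which contains all or no strings of a given length. This language is predicted, too, so a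
nondeterministic machine can verify these bits, by guessing more than half of the strings of length
`N + t` with certificates.
-/

set_option autoImplicit false

namespace Pool.Agent.Results.MP_d5876b_lc.TinyAdvantage

open Pool.Agent.NPC Pool.Agent.H620R2.Gauge Pool.Agent.H622R2.Exp Pool.Agent.J4H22.WA Filter

/-- **`NEXPTIME = EXPSPACE` if and only if `EXPSPACE` is predicted by `NEXPTIME` with an
exponentially small advantage.** -/
theorem result (A : Oracle) (E : Set (Polynomial ℕ)) (hE : E = Lin ∨ E = Pol) (γ : ℝ)
    (h0 : 0 < γ) (h : γ < 1 / 4) :
    (∀ L : Set (List Bool), InNTime E A L ↔ InSpace E A L) ↔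
      ∀ L : Set (List Bool), InSpace E A L →
        ∃ S : Set (List Bool), InNTime E A S ∧
          ∀ᶠ n : ℕ in atTop, (1 / 2 + (2 : ℝ) ^ (-(γ * n))) * 2 ^ n ≤ agr S L n := by
  have hG : Good E ∧ Good2 E := by
    rcases hE with rfl | rfl
    · exact ⟨good_Lin, good2_Lin⟩
    · exact ⟨good_Pol, good2_Pol⟩
  rw [← advantage_iff hG.1 hG.2 h0 h]
  exact ⟨fun H L hL => (H L).2 hL, fun H L => ⟨fun hL => hL.isSpace hG.1, H L⟩⟩

end Pool.Agent.Results.MP_d5876b_lc.TinyAdvantage
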